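import Pool.Agent.H17.Ex3

namespace Pool.Agent.Results.MP_bcd555_gt.Fence
open CategoryTheory

theorem result : ∃ (C : Type) (_ : SmallCategory C),
    SSet.KanComplex (SSet.ex.obj (SSet.ex.obj (nerve C))) ∧
      ¬ SSet.KanComplex (SSet.ex.obj (SSet.ex.obj (nerve Cᵒᵖ))) :=
  ⟨Pool.Agent.H17.Ex.Fence, inferInstance, Pool.Agent.H17.Ex.kan_fence,
    Pool.Agent.H17.Ex.not_kan_op⟩

end Pool.Agent.Results.MP_bcd555_gt.Fence
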